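import Pool.Agent.Y198.MC.Stm

/-!
# The covering of degree three of the bundle of binary cubic forms over a Grassmannian
-/

set_option autoImplicit false
set_option linter.unusedSectionVars false

namespace Pool.Agent.Y406.MC.Cov

open MvPolynomial Pool.Agent.Y166.GM Pool.Agent.Y166.SM Pool.Agent.Y198.MC

section
variable {k : Type} [Field k] {N : ℕ}

theorem symm_ptY (u v : Fin N → k) (x : Fin 2 → k) (q : Fin 3 → k) :
    symm (ptY u v x q) = ptX u v (mulc x q) := by
  funext t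
  simp [Y198.MC.symm, ptY, ptX, wdg, vec, quad, cub, mulc]
  ring

theorem symm_smul (a : k) (y : Co N → k) : symm (a • y) = a • symm y := by
  funext t
  simp only [Y198.MC.symm, Pi.smul_apply, smul_eq_mul]
  ring

theorem wdg_ne {u v : Fin N → k} (hw : wdg u v ≠ 0) :
    ∃ i j, u i * v j - v i * u j ≠ 0 := by
  by_contra hcon
  push Not at hcon
  apply hw
  funext s
  exact hcon s.1 s.2

theorem cub_inj {u v : Fin N → k} (hw : wdg u v ≠ 0) {c : Fin 4 → k} (h : cub u v c = 0) :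
    c = 0 := by
  obtain ⟨i, j, hd⟩ := wdg_ne hw
  have e : ∀ a b d : Fin N, cub u v c (a, b, d) = 0 := fun a b d => congrFun h _
  have h1 := e i i i
  have h2 := e i i j
  have h3 := e i j i
  have h4 := e j i i
  have h5 := e i j j
  have h6 := e j i j
  have h7 := e j j i
  have h8 := e j j j
  simp only [cub] at h1 h2 h3 h4 h5 h6 h7 h8
  have hd3 : (u i * v j - v i * u j) ^ 3 ≠ 0 := pow_ne_zero _ hd
  have g0 : c 0 * (u i * v j - v i * u j) ^ 3 = 0 := by
    linear_combination v j ^ 3 * h1 - v j ^ 2 * v i * (h2 + h3 + h4) +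
      v j * v i ^ 2 * (h5 + h6 + h7) - v i ^ 3 * h8
  have g1 : c 1 * (u i * v j - v i * u j) ^ 3 = 0 := by
    linear_combination -(v j ^ 2 * u j) * h1 + v j ^ 2 * u i * h2 + v j * v i * u j * h3 +
      v j * v i * u j * h4 - v j * v i * u i * h5 - v j * v i * u i * h6 - v i ^ 2 * u j * h7 +
      v i ^ 2 * u i * h8
  have g2 : c 2 * (u i * v j - v i * u j) ^ 3 = 0 := by
    linear_combination v j * u j ^ 2 * h1 - v j * u j * u i * h2 - v j * u j * u i * h3 -
      v i * u j ^ 2 * h4 + v j * u i ^ 2 * h5 + v i * u j * u i * h6 + v i * u j * u i * h7 -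
      v i * u i ^ 2 * h8
  have g3 : c 3 * (u i * v j - v i * u j) ^ 3 = 0 := by
    linear_combination -(u j ^ 3) * h1 + u j ^ 2 * u i * (h2 + h3 + h4) -
      u j * u i ^ 2 * (h5 + h6 + h7) + u i ^ 3 * h8
  funext l
  fin_cases l
  · exact (mul_eq_zero.1 g0).resolve_right hd3
  · exact (mul_eq_zero.1 g1).resolve_right hd3
  · exact (mul_eq_zero.1 g2).resolve_right hd3
  · exact (mul_eq_zero.1 g3).resolve_right hd3

theorem vec_inj {u v : Fin N → k} (hw : wdg u v ≠ 0) {x : Fin 2 → k} (h : vec u v x = 0) :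
    x = 0 := by
  obtain ⟨i, j, hd⟩ := wdg_ne hw
  have h1 : vec u v x i = 0 := congrFun h _
  have h2 : vec u v x j = 0 := congrFun h _
  simp only [vec] at h1 h2
  have g0 : x 0 * (u i * v j - v i * u j) = 0 := by
    linear_combination v j * h1 - v i * h2
  have g1 : x 1 * (u i * v j - v i * u j) = 0 := by
    linear_combination -(u j) * h1 + u i * h2
  funext l
  fin_cases l
  · exact (mul_eq_zero.1 g0).resolve_right hd
  · exact (mul_eq_zero.1 g1).resolve_right hd

theorem quad_inj {u v : Fin N → k} (hw : wdg u v ≠ 0) {q : Fin 3 → k} (h : quad u v q = 0) :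
    q = 0 := by
  obtain ⟨i, j, hd⟩ := wdg_ne hw
  have e : ∀ a b : Fin N, quad u v q (a, b) = 0 := fun a b => congrFun h _
  have h1 := e i i
  have h2 := e i j
  have h3 := e j i
  have h4 := e j j
  simp only [quad] at h1 h2 h3 h4
  have hd2 : (u i * v j - v i * u j) ^ 2 ≠ 0 := pow_ne_zero _ hd
  have g0 : q 0 * (u i * v j - v i * u j) ^ 2 = 0 := by
    linear_combination v j ^ 2 * h1 - v j * v i * (h2 + h3) + v i ^ 2 * h4
  have g1 : q 1 * (u i * v j - v i * u j) ^ 2 = 0 := by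
    linear_combination -(v j * u j) * h1 + v j * u i * h2 + v i * u j * h3 - v i * u i * h4
  have g2 : q 2 * (u i * v j - v i * u j) ^ 2 = 0 := by
    linear_combination u j ^ 2 * h1 - u j * u i * (h2 + h3) + u i ^ 2 * h4
  funext l
  fin_cases l
  · exact (mul_eq_zero.1 g0).resolve_right hd2
  · exact (mul_eq_zero.1 g1).resolve_right hd2
  · exact (mul_eq_zero.1 g2).resolve_right hd2

theorem ptX_ne {u v : Fin N → k} (hw : wdg u v ≠ 0) {c : Fin 4 → k} (hc : c ≠ 0) :
    ptX u v c ≠ 0 := by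
  obtain ⟨s, hs⟩ := Function.ne_iff.1 hw
  obtain ⟨t, ht⟩ := Function.ne_iff.1 fun h => hc (cub_inj hw h)
  exact Function.ne_iff.2 ⟨(s, t), mul_ne_zero hs ht⟩

theorem of_ptX_ne {u v : Fin N → k} {c : Fin 4 → k} (h : ptX u v c ≠ 0) :
    wdg u v ≠ 0 ∧ c ≠ 0 := by
  refine ⟨fun h0 => h ?_, fun h0 => h ?_⟩
  · funext t
    show wdg u v t.1 * _ = 0
    rw [h0, Pi.zero_apply, zero_mul]
  · funext t
    show _ * cub u v c t.2 = 0
    rw [h0]
    simp [cub]

theorem ptY_ne {u v : Fin N → k} (hw : wdg u v ≠ 0) {x : Fin 2 → k} {q : Fin 3 → k} (hx : x ≠ 0)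
    (hq : q ≠ 0) : ptY u v x q ≠ 0 := by
  obtain ⟨s, hs⟩ := Function.ne_iff.1 hw
  obtain ⟨i, hi⟩ := Function.ne_iff.1 fun h => hx (vec_inj hw h)
  obtain ⟨t, ht⟩ := Function.ne_iff.1 fun h => hq (quad_inj hw h)
  exact Function.ne_iff.2 ⟨(s, (i, t)), mul_ne_zero hs (mul_ne_zero hi ht)⟩

theorem of_ptY_ne {u v : Fin N → k} {x : Fin 2 → k} {q : Fin 3 → k} (h : ptY u v x q ≠ 0) :
    wdg u v ≠ 0 ∧ x ≠ 0 ∧ q ≠ 0 := by
  refine ⟨fun h0 => h ?_, fun h0 => h ?_, fun h0 => h ?_⟩
  · funext t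
    show wdg u v t.1 * _ = 0
    rw [h0, Pi.zero_apply, zero_mul]
  · funext t
    show _ * (vec u v x t.2.1 * _) = 0
    rw [h0]
    simp [vec]
  · funext t
    show _ * (_ * quad u v q t.2.2) = 0
    rw [h0]
    simp [quad]

theorem mulc_ne [CharZero k] {x : Fin 2 → k} {q : Fin 3 → k} (hx : x ≠ 0) (hq : q ≠ 0) :
    mulc x q ≠ 0 := by
  intro h
  have h0 : 3 * x 0 * q 0 = 0 := congrFun h 0
  have h1 : x 1 * q 0 + 2 * x 0 * q 1 = 0 := congrFun h 1
  have h2 : 2 * x 1 * q 1 + x 0 * q 2 = 0 := congrFun h 2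
  have h3 : 3 * x 1 * q 2 = 0 := congrFun h 3
  by_cases hx0 : x 0 = 0
  · have hx1 : x 1 ≠ 0 := by
      intro h4
      apply hx
      funext l
      fin_cases l
      · exact hx0
      · exact h4
    rw [hx0] at h1 h2
    have e0 : q 0 = 0 := by simpa [hx1] using h1
    have e1 : q 1 = 0 := by simpa [hx1] using h2
    have e2 : q 2 = 0 := by simpa [hx1] using h3
    apply hq
    funext l
    fin_cases l
    · exact e0
    · exact e1
    · exact e2
  · have e0 : q 0 = 0 := by simpa [hx0] using h0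
    rw [e0] at h1
    have e1 : q 1 = 0 := by simpa [hx0] using h1
    rw [e1] at h2
    have e2 : q 2 = 0 := by simpa [hx0] using h2
    apply hq
    funext l
    fin_cases l
    · exact e0
    · exact e1
    · exact e2

/-- Planes with proportional Plücker coordinates are equal. -/
theorem plane {u v u' v' : Fin N → k} {b : k} (hb : b ≠ 0) (h : wdg u' v' = b • wdg u v)
    (hw : wdg u v ≠ 0) :
    ∃ g₀ g₁ g₂ g₃ : k, (u' = fun l => g₀ * u l + g₁ * v l) ∧ v' = fun l => g₂ * u l + g₃ * v l := by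
  obtain ⟨i, j, hd⟩ := wdg_ne hw
  have e : ∀ a c : Fin N, u' a * v' c - v' a * u' c = b * (u a * v c - v a * u c) :=
    fun a c => congrFun h (a, c)
  refine ⟨(u' i * v j - u' j * v i) / (u i * v j - v i * u j),
    (u' j * u i - u' i * u j) / (u i * v j - v i * u j),
    (v' i * v j - v' j * v i) / (u i * v j - v i * u j),
    (v' j * u i - v' i * u j) / (u i * v j - v i * u j), ?_, ?_⟩
  · funext l
    have h1 := e i j
    have h2 := e l j
    have h3 := e i l
    rw [div_mul_eq_mul_div, div_mul_eq_mul_div, ← add_div, eq_div_iff hd]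
    apply mul_left_cancel₀ hb
    linear_combination -(u' l) * h1 + u' i * h2 + u' j * h3
  · funext l
    have h1 := e i j
    have h2 := e l j
    have h3 := e i l
    rw [div_mul_eq_mul_div, div_mul_eq_mul_div, ← add_div, eq_div_iff hd]
    apply mul_left_cancel₀ hb
    linear_combination -(v' l) * h1 + v' i * h2 + v' j * h3

theorem ptY_change (u v : Fin N → k) (x : Fin 2 → k) (q : Fin 3 → k) (g₀ g₁ g₂ g₃ : k) :
    ptY (fun l => g₀ * u l + g₁ * v l) (fun l => g₂ * u l + g₃ * v l) x q =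
      (g₀ * g₃ - g₁ * g₂) • ptY u v ![x 0 * g₀ + x 1 * g₂, x 0 * g₁ + x 1 * g₃]
        ![q 0 * g₀ ^ 2 + 2 * q 1 * g₀ * g₂ + q 2 * g₂ ^ 2,
          q 0 * g₀ * g₁ + q 1 * (g₀ * g₃ + g₁ * g₂) + q 2 * g₂ * g₃,
          q 0 * g₁ ^ 2 + 2 * q 1 * g₁ * g₃ + q 2 * g₃ ^ 2] := by
  funext t
  simp [ptY, wdg, vec, quad]
  ring

theorem ptY_smul (u v : Fin N → k) (x : Fin 2 → k) (q : Fin 3 → k) (a b : k) :
    ptY u v (a • x) (b • q) = (a * b) • ptY u v x q := by
  funext t
  simp [ptY, wdg, vec, quad]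
  ring

theorem mulc_smul (x : Fin 2 → k) (q : Fin 3 → k) (a b : k) :
    mulc (a • x) (b • q) = (a * b) • mulc x q := by
  funext t
  fin_cases t <;> simp [mulc] <;> ring

theorem ptX_inj {u v : Fin N → k} (hw : wdg u v ≠ 0) {c c' : Fin 4 → k} {a : k}
    (h : ptX u v c' = a • ptX u v c) : c' = a • c := by
  obtain ⟨s, hs⟩ := Function.ne_iff.1 hw
  have h1 : cub u v (c' - a • c) = 0 := by
    funext t
    have h2 : wdg u v s * cub u v c' t = a * (wdg u v s * cub u v c t) := congrFun h (s, t)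
    have h3 : cub u v (c' - a • c) t = cub u v c' t - a * cub u v c t := by
      simp [cub]
      ring
    rw [h3, Pi.zero_apply]
    apply mul_left_cancel₀ hs
    linear_combination h2
  exact sub_eq_zero.1 (cub_inj hw h1)

end

section
variable {k : Type} [Field k] [CharZero k] {N : ℕ}

theorem rep_symm {y : PP k (Co N)} (hy : y ∈ YY k N) : symm y.rep ≠ 0 := by
  obtain ⟨u, v, x, q, h⟩ := hy
  obtain ⟨hw, hx, hq⟩ := of_ptY_ne h.ne_zero
  obtain ⟨a, ha, h1⟩ := h.exists_smul (rep_rep y)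
  rw [h1, symm_smul, symm_ptY]
  exact smul_ne_zero ha (ptX_ne hw (mulc_ne hx hq))

theorem rep_cov {y : PP k (Co N)} (hy : y ∈ YY k N) : Rep (cov k N y) (symm y.rep) := by
  refine ⟨rep_symm hy, ?_⟩
  unfold cov
  rw [dif_pos (rep_symm hy)]

theorem rep_cov' {u v : Fin N → k} {x : Fin 2 → k} {q : Fin 3 → k} {y : PP k (Co N)}
    (h : Rep y (ptY u v x q)) : Rep (cov k N y) (ptX u v (mulc x q)) := by
  obtain ⟨a, ha, h1⟩ := (rep_rep y).exists_smul h
  have h2 := (rep_cov ⟨u, v, x, q, h⟩).smul ha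
  rw [← symm_smul, ← h1, symm_ptY] at h2
  exact h2

theorem fib {u v : Fin N → k} {c : Fin 4 → k} {z : PP k (Co N)} (hz : Rep z (ptX u v c))
    {y : PP k (Co N)} (hy : y ∈ YY k N) (hyz : cov k N y = z) :
    ∃ (x : Fin 2 → k) (q : Fin 3 → k), x ≠ 0 ∧ mulc x q = c ∧ Rep y (ptY u v x q) := by
  obtain ⟨hw, hc⟩ := of_ptX_ne hz.ne_zero
  obtain ⟨u', v', x', q', h⟩ := hy
  have h1 := rep_cov' h
  rw [hyz] at h1
  obtain ⟨a, ha, h2⟩ := hz.exists_smul h1
  obtain ⟨s, hs⟩ := Function.ne_iff.1 hw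
  obtain ⟨t, ht⟩ := Function.ne_iff.1 fun h => hc (cub_inj hw h)
  have h3 : ∀ s t, wdg u' v' s * cub u' v' (mulc x' q') t = a * (wdg u v s * cub u v c t) :=
    fun s t => congrFun h2 (s, t)
  have h4 : cub u' v' (mulc x' q') t ≠ 0 := by
    intro h0
    have h5 := h3 s t
    rw [h0, mul_zero] at h5
    exact (mul_ne_zero ha (mul_ne_zero hs ht)) h5.symm
  have h6 : wdg u' v' = (a * cub u v c t / cub u' v' (mulc x' q') t) • wdg u v := by
    funext s
    have h5 := h3 s t
    rw [Pi.smul_apply, smul_eq_mul, div_mul_eq_mul_div, eq_div_iff h4, h5]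
    ring
  have hb : a * cub u v c t / cub u' v' (mulc x' q') t ≠ 0 := div_ne_zero (mul_ne_zero ha ht) h4
  obtain ⟨g₀, g₁, g₂, g₃, rfl, rfl⟩ := plane hb h6 hw
  rw [ptY_change] at h
  have hdet : g₀ * g₃ - g₁ * g₂ ≠ 0 := by
    intro h0
    rw [h0, zero_smul] at h
    exact h.ne_zero rfl
  have h7 := h.smul (inv_ne_zero hdet)
  rw [smul_smul, inv_mul_cancel₀ hdet, one_smul] at h7
  generalize (![x' 0 * g₀ + x' 1 * g₂, x' 0 * g₁ + x' 1 * g₃] : Fin 2 → k) = x at h7
  generalize (![q' 0 * g₀ ^ 2 + 2 * q' 1 * g₀ * g₂ + q' 2 * g₂ ^ 2,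
          q' 0 * g₀ * g₁ + q' 1 * (g₀ * g₃ + g₁ * g₂) + q' 2 * g₂ * g₃,
          q' 0 * g₁ ^ 2 + 2 * q' 1 * g₁ * g₃ + q' 2 * g₃ ^ 2] : Fin 3 → k) = q at h7
  have h8 := rep_cov' h7
  rw [hyz] at h8
  obtain ⟨r, hr, h9⟩ := h8.exists_smul hz
  have h10 := ptX_inj hw h9
  obtain ⟨_, hx, hq⟩ := of_ptY_ne h7.ne_zero
  refine ⟨x, r • q, hx, ?_, ?_⟩
  · have := mulc_smul x q 1 r
    rw [one_smul, one_mul] at this
    rw [this, h10]
  · have := ptY_smul u v x q 1 r
    rw [one_smul, one_mul] at this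
    rw [this]
    exact h7.smul hr

/-! ### the points of a fibre -/

/-- The coefficients of the quotient of the cubic form `c` by the linear form `(1, - t)`. -/
def qf (c : Fin 4 → k) (t : k) : Fin 3 → k :=
  ![c 0 / 3, (c 1 + t * (c 0 / 3)) / 2, c 2 + t * (c 1 + t * (c 0 / 3))]

/-- The representatives of the possible points of a fibre. -/
def GG (u v : Fin N → k) (c : Fin 4 → k) : Option k → Co N → k
  | none => ptY u v ![0, 1] ![c 1, c 2 / 2, c 3 / 3]
  | some t => ptY u v ![1, -t] (qf c t)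

/-- The cubic polynomial. -/
noncomputable def Pc (c : Fin 4 → k) : Polynomial k :=
  Polynomial.C (c 0) * Polynomial.X ^ 3 + Polynomial.C (3 * c 1) * Polynomial.X ^ 2 +
    Polynomial.C (3 * c 2) * Polynomial.X + Polynomial.C (c 3)

theorem Pc_co (c : Fin 4 → k) : (Pc c).coeff 3 = c 0 ∧ (Pc c).coeff 2 = 3 * c 1 ∧
    (Pc c).coeff 1 = 3 * c 2 ∧ (Pc c).coeff 0 = c 3 := by
  refine ⟨?_, ?_, ?_, ?_⟩ <;>
  · simp only [Pc, Polynomial.coeff_add, Polynomial.coeff_C_mul, Polynomial.coeff_X_pow,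
      Polynomial.coeff_X, Polynomial.coeff_C]
    norm_num

theorem Pc_ne {c : Fin 4 → k} (hc : c ≠ 0) : Pc c ≠ 0 := by
  intro h
  apply hc
  obtain ⟨e0, e1, e2, e3⟩ := Pc_co c
  rw [h, Polynomial.coeff_zero] at e0 e1 e2 e3
  replace e0 := e0.symm
  have e1 := (mul_eq_zero.1 e1.symm).resolve_left (by norm_num)
  have e2 := (mul_eq_zero.1 e2.symm).resolve_left (by norm_num)
  replace e3 := e3.symm
  funext l
  fin_cases l
  · exact e0
  · exact e1
  · exact e2
  · exact e3

theorem Pc_deg (c : Fin 4 → k) : (Pc c).natDegree ≤ 3 := by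
  unfold Pc
  compute_degree

theorem Pc_deg0 {c : Fin 4 → k} (h : c 0 = 0) : (Pc c).natDegree ≤ 2 := by
  unfold Pc
  rw [h, Polynomial.C_0, zero_mul, zero_add]
  compute_degree

open Classical in
/-- The labels of the points of a fibre. -/
noncomputable def SS (c : Fin 4 → k) : Finset (Option k) :=
  (Pc c).roots.toFinset.image some ∪ if c 0 = 0 then {none} else ∅

theorem SS_card (c : Fin 4 → k) : (SS c).card ≤ 3 := by
  classical
  unfold SS
  have h1 : ((Pc c).roots.toFinset.image some).card ≤ (Pc c).natDegree :=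
    Finset.card_image_le.trans ((Multiset.toFinset_card_le _).trans (Polynomial.card_roots' _))
  refine (Finset.card_union_le _ _).trans ?_
  by_cases h : c 0 = 0
  · rw [if_pos h, Finset.card_singleton]
    have := Pc_deg0 h
    omega
  · rw [if_neg h, Finset.card_empty]
    have := Pc_deg c
    omega

theorem label {u v : Fin N → k} {c : Fin 4 → k} (hc : c ≠ 0) {x : Fin 2 → k} {q : Fin 3 → k}
    (hx : x ≠ 0) (hm : mulc x q = c) {y : PP k (Co N)} (hy : Rep y (ptY u v x q)) :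
    ∃ l ∈ SS c, Rep y (GG u v c l) := by
  classical
  have h0 : 3 * x 0 * q 0 = c 0 := congrFun hm 0
  have h1 : x 1 * q 0 + 2 * x 0 * q 1 = c 1 := congrFun hm 1
  have h2 : 2 * x 1 * q 1 + x 0 * q 2 = c 2 := congrFun hm 2
  have h3 : 3 * x 1 * q 2 = c 3 := congrFun hm 3
  by_cases hx0 : x 0 = 0
  · have hx1 : x 1 ≠ 0 := by
      intro h4
      apply hx
      funext l
      fin_cases l
      · exact hx0
      · exact h4
    refine ⟨none, ?_, ?_⟩
    · unfold SS
      rw [if_pos (by rw [← h0, hx0]; ring)]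
      simp
    · have e : (![0, 1] : Fin 2 → k) = (x 1)⁻¹ • x := by
        funext l
        fin_cases l
        · simp [hx0]
        · simp [hx1]
      have e' : (![c 1, c 2 / 2, c 3 / 3] : Fin 3 → k) = x 1 • q := by
        rw [hx0] at h1 h2
        funext l
        fin_cases l
        · simp [← h1]
        · simp only [Fin.reduceFinMk, Matrix.cons_val_one, Matrix.cons_val_zero, Pi.smul_apply, smul_eq_mul]
          show c 2 / 2 = x 1 * q 1
          rw [← h2]
          field_simp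
          ring
        · show c 3 / 3 = x 1 * q 2
          rw [← h3]
          field_simp
      show Rep y (ptY u v ![0, 1] ![c 1, c 2 / 2, c 3 / 3])
      rw [e, e', ptY_smul, inv_mul_cancel₀ hx1, one_smul]
      exact hy
  · have e : (![1, -(-x 1 / x 0)] : Fin 2 → k) = (x 0)⁻¹ • x := by
      funext l
      fin_cases l
      · simp [hx0]
      · show -(-x 1 / x 0) = (x 0)⁻¹ * x 1
        field_simp
    have e' : qf c (-x 1 / x 0) = x 0 • q := by
      funext l
      fin_cases l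
      · show c 0 / 3 = x 0 * q 0
        rw [← h0]
        field_simp
      · show (c 1 + (-x 1 / x 0) * (c 0 / 3)) / 2 = x 0 * q 1
        rw [← h0, ← h1]
        field_simp
        ring
      · show c 2 + (-x 1 / x 0) * (c 1 + (-x 1 / x 0) * (c 0 / 3)) = x 0 * q 2
        rw [← h0, ← h1, ← h2]
        field_simp
        ring
    refine ⟨some (-x 1 / x 0), ?_, ?_⟩
    · unfold SS
      refine Finset.mem_union_left _ (Finset.mem_image_of_mem _ ?_)
      rw [Multiset.mem_toFinset, Polynomial.mem_roots (Pc_ne hc), Polynomial.IsRoot.def]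
      simp only [Pc, Polynomial.eval_add, Polynomial.eval_mul, Polynomial.eval_C,
        Polynomial.eval_pow, Polynomial.eval_X]
      rw [← h0, ← h1, ← h2, ← h3]
      field_simp
      ring
    · show Rep y (ptY u v ![1, -(-x 1 / x 0)] (qf c (-x 1 / x 0)))
      rw [e, e', ptY_smul, inv_mul_cancel₀ hx0, one_smul]
      exact hy

theorem fibre_le {u v : Fin N → k} {c : Fin 4 → k} {z : PP k (Co N)}
    (hz : Rep z (ptX u v c)) : {y | y ∈ YY k N ∧ cov k N y = z}.encard ≤ 3 := by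
  obtain ⟨hw, hc⟩ := of_ptX_ne hz.ne_zero
  have h1 : ∀ y : PP k (Co N), ∃ l : Option k, y ∈ YY k N ∧ cov k N y = z →
      l ∈ SS c ∧ Rep y (GG u v c l) := by
    intro y
    by_cases hy : y ∈ YY k N ∧ cov k N y = z
    · obtain ⟨x, q, hx, hm, h2⟩ := fib hz hy.1 hy.2
      obtain ⟨l, hl, h3⟩ := label hc hx hm h2
      exact ⟨l, fun _ => ⟨hl, h3⟩⟩
    · exact ⟨none, fun h => absurd h hy⟩
  choose L hL using h1
  have h2 := Set.encard_le_encard_of_injOn (s := {y | y ∈ YY k N ∧ cov k N y = z})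
    (t := (SS c : Set (Option k))) (f := L) (fun y hy => (hL y hy).1) (by
      intro y hy y' hy' h
      have h3 := (hL y hy).2
      rw [h] at h3
      exact h3.eq (hL y' hy').2)
  refine h2.trans ?_
  rw [Set.encard_coe_eq_coe_finsetCard]
  exact_mod_cast SS_card c

theorem fibre_ne [IsAlgClosed k] {c : Fin 4 → k} (hc : c ≠ 0) :
    ∃ (x : Fin 2 → k) (q : Fin 3 → k), x ≠ 0 ∧ q ≠ 0 ∧ mulc x q = c := by
  have key : ∃ (x : Fin 2 → k) (q : Fin 3 → k), x ≠ 0 ∧ mulc x q = c := by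
    by_cases h : (Pc c).degree = 0
    · have h0 : (Pc c).coeff 3 = 0 :=
        Polynomial.coeff_eq_zero_of_degree_lt (by rw [h]; norm_num)
      have h1 : (Pc c).coeff 2 = 0 :=
        Polynomial.coeff_eq_zero_of_degree_lt (by rw [h]; norm_num)
      have h2 : (Pc c).coeff 1 = 0 :=
        Polynomial.coeff_eq_zero_of_degree_lt (by rw [h]; norm_num)
      obtain ⟨e0, e1, e2, _⟩ := Pc_co c
      rw [h0] at e0
      rw [h1] at e1
      rw [h2] at e2
      replace h0 : c 0 = 0 := e0.symm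
      replace h1 : c 1 = 0 := (mul_eq_zero.1 e1.symm).resolve_left (by norm_num)
      replace h2 : c 2 = 0 := (mul_eq_zero.1 e2.symm).resolve_left (by norm_num)
      refine ⟨![0, 1], ![0, 0, c 3 / 3], ?_, ?_⟩
      · intro h3
        exact one_ne_zero (congrFun h3 1 : (1 : k) = 0)
      · funext l
        fin_cases l
        · simp [mulc, h0]
        · simp [mulc, h1]
        · simp [mulc, h2]
        · simp [mulc]
          field_simp
    · obtain ⟨t, ht⟩ := IsAlgClosed.exists_root _ h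
      rw [Polynomial.IsRoot.def] at ht
      simp only [Pc, Polynomial.eval_add, Polynomial.eval_mul, Polynomial.eval_C,
        Polynomial.eval_pow, Polynomial.eval_X] at ht
      refine ⟨![1, -t], qf c t, ?_, ?_⟩
      · intro h3
        exact one_ne_zero (congrFun h3 0 : (1 : k) = 0)
      · funext l
        fin_cases l
        · show 3 * 1 * (c 0 / 3) = c 0
          field_simp
        · show (-t) * (c 0 / 3) + 2 * 1 * ((c 1 + t * (c 0 / 3)) / 2) = c 1
          field_simp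
          ring
        · show 2 * (-t) * ((c 1 + t * (c 0 / 3)) / 2) + 1 * (c 2 + t * (c 1 + t * (c 0 / 3))) = c 2
          field_simp
          ring
        · show 3 * (-t) * (c 2 + t * (c 1 + t * (c 0 / 3))) = c 3
          field_simp
          linear_combination -ht
  obtain ⟨x, q, hx, hm⟩ := key
  refine ⟨x, q, hx, ?_, hm⟩
  rintro rfl
  apply hc
  rw [← hm]
  funext l
  fin_cases l <;> simp [mulc]

theorem done : StmCov := by
  intro k _ _ _ N hN
  refine ⟨?_, ?_, fun u v x q y h => rep_cov' h, ?_, ?_⟩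
  · intro y _
    refine ⟨Set.univ, isOpen_univ, trivial, 1, fun t => X (t.1, (t.2.1, t.2.2.1, t.2.2.2)) +
      X (t.1, (t.2.2.1, t.2.1, t.2.2.2)) + X (t.1, (t.2.2.2, t.2.1, t.2.2.1)), fun t => ?_, ?_⟩
    · exact ((isHomogeneous_X _ _).add (isHomogeneous_X _ _)).add (isHomogeneous_X _ _)
    · rintro z ⟨_, hz⟩
      simp only [map_add, eval_X]
      exact rep_cov hz
  · rintro y ⟨u, v, x, q, h⟩
    exact ⟨u, v, mulc x q, rep_cov' h⟩
  · rintro z ⟨u, v, c, hz⟩
    refine ⟨?_, fibre_le hz⟩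
    obtain ⟨hw, hc⟩ := of_ptX_ne hz.ne_zero
    obtain ⟨x, q, hx, hq, hm⟩ := fibre_ne hc
    obtain ⟨y, hy⟩ := exists_rep (ptY_ne hw hx hq)
    refine ⟨y, ⟨u, v, x, q, hy⟩, ?_⟩
    have h1 := rep_cov' hy
    rw [hm] at h1
    exact h1.eq hz
  · obtain ⟨M, rfl⟩ : ∃ M, N = M + 2 := ⟨N - 2, by omega⟩
    set u : Fin (M + 2) → k := Pi.single 0 1 with hu
    set v : Fin (M + 2) → k := Pi.single 1 1 with hv
    have u0 : u 0 = 1 := by simp [hu]
    have u1 : u 1 = 0 := by simp [hu]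
    have v0 : v 0 = 0 := by simp [hv]
    have v1 : v 1 = 1 := by simp [hv]
    have hw : wdg u v ≠ 0 := by
      refine Function.ne_iff.2 ⟨(0, 1), ?_⟩
      simp [wdg, u0, u1, v0, v1]
    have hc : (![0, 1, 1, 0] : Fin 4 → k) ≠ 0 := fun h => one_ne_zero (congrFun h 1 : (1 : k) = 0)
    obtain ⟨z, hz⟩ := exists_rep (ptX_ne hw hc)
    refine ⟨z, ⟨u, v, _, hz⟩, le_antisymm (fibre_le hz) ?_⟩
    have hx1 : (![1, 0] : Fin 2 → k) ≠ 0 := fun h => one_ne_zero (congrFun h 0 : (1 : k) = 0)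
    have hx2 : (![0, 1] : Fin 2 → k) ≠ 0 := fun h => one_ne_zero (congrFun h 1 : (1 : k) = 0)
    have hx3 : (![1, 1] : Fin 2 → k) ≠ 0 := fun h => one_ne_zero (congrFun h 1 : (1 : k) = 0)
    have hq1 : (![0, 1 / 2, 1] : Fin 3 → k) ≠ 0 :=
      fun h => one_ne_zero (congrFun h 2 : (1 : k) = 0)
    have hq2 : (![1, 1 / 2, 0] : Fin 3 → k) ≠ 0 :=
      fun h => one_ne_zero (congrFun h 0 : (1 : k) = 0)
    have hq3 : (![0, 1 / 2, 0] : Fin 3 → k) ≠ 0 :=
      fun h => (by norm_num : (1 / 2 : k) ≠ 0) (congrFun h 1 : (1 / 2 : k) = 0)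
    obtain ⟨y1, hy1⟩ := exists_rep (ptY_ne hw hx1 hq1)
    obtain ⟨y2, hy2⟩ := exists_rep (ptY_ne hw hx2 hq2)
    obtain ⟨y3, hy3⟩ := exists_rep (ptY_ne hw hx3 hq3)
    have m1 : mulc (![1, 0] : Fin 2 → k) ![0, 1 / 2, 1] = ![0, 1, 1, 0] := by
      funext l
      fin_cases l <;> simp [mulc]
    have m2 : mulc (![0, 1] : Fin 2 → k) ![1, 1 / 2, 0] = ![0, 1, 1, 0] := by
      funext l
      fin_cases l <;> simp [mulc]
    have m3 : mulc (![1, 1] : Fin 2 → k) ![0, 1 / 2, 0] = ![0, 1, 1, 0] := by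
      funext l
      fin_cases l <;> simp [mulc]
    have c1 : cov k (M + 2) y1 = z := by
      have := rep_cov' hy1
      rw [m1] at this
      exact this.eq hz
    have c2 : cov k (M + 2) y2 = z := by
      have := rep_cov' hy2
      rw [m2] at this
      exact this.eq hz
    have c3 : cov k (M + 2) y3 = z := by
      have := rep_cov' hy3
      rw [m3] at this
      exact this.eq hz
    have n12 : y1 ≠ y2 := by
      rintro rfl
      obtain ⟨a, ha, h⟩ := hy1.exists_smul hy2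
      have h1 := congrFun h ((0, 1), (1, (0, 1)))
      simp [ptY, wdg, vec, quad, u0, u1, v0, v1] at h1
    have n13 : y1 ≠ y3 := by
      rintro rfl
      obtain ⟨a, ha, h⟩ := hy1.exists_smul hy3
      have h1 := congrFun h ((0, 1), (1, (0, 1)))
      simp [ptY, wdg, vec, quad, u0, u1, v0, v1] at h1
    have n23 : y2 ≠ y3 := by
      rintro rfl
      obtain ⟨a, ha, h⟩ := hy2.exists_smul hy3
      have h1 := congrFun h ((0, 1), (0, (0, 1)))
      simp [ptY, wdg, vec, quad, u0, u1, v0, v1] at h1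
    have h3 : ({y1, y2, y3} : Set (PP k (Co (M + 2)))).encard = 3 := by
      rw [Set.encard_eq_three]
      exact ⟨y1, y2, y3, n12, n13, n23, rfl⟩
    rw [← h3]
    refine Set.encard_le_encard ?_
    rintro y (rfl | rfl | rfl)
    · exact ⟨⟨u, v, _, _, hy1⟩, c1⟩
    · exact ⟨⟨u, v, _, _, hy2⟩, c2⟩
    · exact ⟨⟨u, v, _, _, hy3⟩, c3⟩

end

end Pool.Agent.Y406.MC.Cov
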